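import Mathlib
import Pool.Agent.Run7.h25.HA.Rad

/-!
# Maximal Haagerup subgroups of `SL (3, ℤ)` with two commuting transvections

Let `H` be a maximal Haagerup subgroup of `SL (3, ℤ)`, and let `u, w` be commuting transvections in
`H` without a common nontrivial power. Then `u` and `w` have the same axis, `H` preserves this
plane and `H` contains all transvections of `SL (3, ℤ)` with this axis; or `u` and `w` have the same
centre, `H` preserves this line and `H` contains all transvections of `SL (3, ℤ)` with this centre.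
So `H` contains the unipotent radical `ℤ ^ 2` of the stabiliser `ℤ ^ 2 ⋊ GL (2, ℤ)` of the plane or
of the line, and `H` is the semidirect product of `ℤ ^ 2` and of a subgroup of `GL (2, ℤ)`.

Idea of the proof. By relative property (T) the axis is preserved by each Haagerup subgroup which
contains two transvections with this axis and different centres. So `H` normalises the group `R` of
the transvections `1 + t ⊗ θ` with a fixed form `θ`, and `H ∩ R` has finite index in `R`; hence `H`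
has finite index in `H R`. The Haagerup property passes to overgroups of finite index: sum a proper
conditionally negative definite function over the coset representatives. As `H` is maximal,
`H R = H`. The case of the same centre follows by the inverse transpose.
-/

set_option autoImplicit false

namespace Pool.Agent.Results.MP_5045a8_al.CommutingTransvections

open Matrix

/-- The group `SL (3, ℤ)`. -/
abbrev SL3Z : Type := Matrix.SpecialLinearGroup (Fin 3) ℤ

/-- The Haagerup property: there is a proper conditionally negative definite function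
`ψ : Γ → [0, ∞)`. -/
def HasHaagerup (Γ : Type) [Group Γ] : Prop :=
  ∃ ψ : Γ → ℝ, (∀ g, 0 ≤ ψ g) ∧ (∀ g, ψ g⁻¹ = ψ g) ∧
    (∀ (n : ℕ) (g : Fin n → Γ) (c : Fin n → ℝ), ∑ i, c i = 0 →
      ∑ i, ∑ j, c i * c j * ψ ((g i)⁻¹ * g j) ≤ 0) ∧
    ∀ R : ℝ, {g | ψ g ≤ R}.Finite

/-- Maximal Haagerup subgroups. -/
def IsMaximalHaagerup {G : Type} [Group G] (H : Subgroup G) : Prop :=
  HasHaagerup H ∧ ∀ K : Subgroup G, H ≤ K → HasHaagerup K → K = H

/-- `g = 1 + v ⊗ φ` with `φ (v) = 0`; if `v, φ` are different from `0` then `g` is the transvection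
with the centre `ℚ v` and the axis `ker φ`. -/
def IsTv (g : SL3Z) (v φ : Fin 3 → ℤ) : Prop := φ ⬝ᵥ v = 0 ∧ g.1 = 1 + vecMulVec v φ

/-- Linearly dependent vectors. -/
def Parallel (a b : Fin 3 → ℤ) : Prop := ∀ i j, a i * b j = a j * b i

theorem haag_iff (Γ : Type) [Group Γ] : HasHaagerup Γ ↔ Pool.Agent.Run7.h25.HA.HasHaagerup Γ :=
  ⟨fun ⟨ψ, h1, h2, h3, h4⟩ => ⟨ψ, ⟨h1, h2, h3⟩, h4⟩, fun ⟨ψ, ⟨h1, h2, h3⟩, h4⟩ => ⟨ψ, h1, h2, h3, h4⟩⟩

open Pool.Agent.Run7.h25.TV Pool.Agent.Run7.h25.HA Pool.Agent.Helper460_CSP in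
/-- Let `H` be a maximal Haagerup subgroup of `SL (3, ℤ)` and let `u, w` in `H` be commuting
transvections without a common nontrivial power, `u = 1 + v ⊗ φ` and `w = 1 + y ⊗ ψ`. Then either
`u, w` have the same axis, `H` preserves it and contains all transvections with this axis, or `u, w`
have the same centre, `H` preserves it and contains all transvections with this centre. -/
theorem result : ∀ H : Subgroup SL3Z, IsMaximalHaagerup H → ∀ u ∈ H, ∀ w ∈ H,
    ∀ v φ y ψ : Fin 3 → ℤ, v ≠ 0 → φ ≠ 0 → y ≠ 0 → ψ ≠ 0 → IsTv u v φ → IsTv w y ψ →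
    u * w = w * u → (¬ ∃ a b : ℤ, a ≠ 0 ∧ b ≠ 0 ∧ u ^ a = w ^ b) →
    (Parallel φ ψ ∧ (∀ k ∈ H, φ ᵥ* k.1 = φ ∨ φ ᵥ* k.1 = -φ) ∧
      ∀ (g : SL3Z) (t θ : Fin 3 → ℤ), Parallel φ θ → IsTv g t θ → g ∈ H) ∨
    (Parallel v y ∧ (∀ k ∈ H, k.1 *ᵥ v = v ∨ k.1 *ᵥ v = -v) ∧
      ∀ (g : SL3Z) (t θ : Fin 3 → ℤ), Parallel v t → IsTv g t θ → g ∈ H) := by
  rintro H ⟨hH, hmax⟩ u hu w hw v φ y ψ hv hφ hy hψ ⟨hφv, hum⟩ ⟨hψy, hwm⟩ hcomm hpow
  have hH' : Pool.Agent.Run7.h25.HA.HasHaagerup H := (haag_iff _).1 hH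
  have hmax' : ∀ K : Subgroup SL3Z, H ≤ K → Pool.Agent.Run7.h25.HA.HasHaagerup K → K = H :=
    fun K hle hK => hmax K hle ((haag_iff _).2 hK)
  have T1 : Tr H v φ := ⟨hφv, u, hu, hum⟩
  have T2 : Tr H y ψ := ⟨hψy, w, hw, hwm⟩
  have hnp : ¬ (Par v y ∧ Par φ ψ) := fun h =>
    hpow (common_power ⟨hv, hφ, hφv, hum⟩ ⟨hy, hψ, hψy, hwm⟩ h.1 h.2)
  -- the forms vanish
  have e : u.1 * w.1 = w.1 * u.1 := congrArg Subtype.val hcomm
  have hent : ∀ i j, v i * ((φ ⬝ᵥ y) * ψ j) = y i * ((ψ ⬝ᵥ v) * φ j) := by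
    intro i j
    rw [hum, hwm, Matrix.add_mul, Matrix.mul_add, Matrix.mul_add, Matrix.one_mul,
      Matrix.one_mul, Matrix.mul_one, vecMulVec_mul_vecMulVec, Matrix.add_mul, Matrix.mul_add,
      Matrix.mul_add, Matrix.one_mul, Matrix.one_mul, Matrix.mul_one,
      vecMulVec_mul_vecMulVec] at e
    have h := congrFun (congrFun e i) j
    simp only [Matrix.add_apply, vecMulVec_apply, Pi.smul_apply, smul_eq_mul] at h
    linarith
  have hprod : (φ ⬝ᵥ y) * (ψ ⬝ᵥ v) = 0 := by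
    obtain ⟨r, hr⟩ := Function.ne_iff.1 hφ
    have hr' : φ r ≠ 0 := hr
    have h1 : φ r * ((φ ⬝ᵥ y) * (ψ ⬝ᵥ v)) = 0 := by
      have e0 := hent 0 r
      have e1 := hent 1 r
      have e2 := hent 2 r
      have hv' := hφv
      have hy' : φ ⬝ᵥ y = φ 0 * y 0 + φ 1 * y 1 + φ 2 * y 2 := by
        simp [dotProduct, Fin.sum_univ_three]
      simp only [dotProduct, Fin.sum_univ_three] at hv'
      generalize φ ⬝ᵥ y = A at *
      generalize ψ ⬝ᵥ v = B at *
      rw [hy']
      rw [hy'] at e0 e1 e2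
      linear_combination -(φ 0) * e0 - φ 1 * e1 - φ 2 * e2 +
        (φ 0 * y 0 + φ 1 * y 1 + φ 2 * y 2) * ψ r * hv'
    exact (mul_eq_zero.1 h1).resolve_left hr'
  obtain ⟨a, ha⟩ := Function.ne_iff.1 hv
  obtain ⟨b, hb⟩ := Function.ne_iff.1 hψ
  obtain ⟨c, hc⟩ := Function.ne_iff.1 hy
  obtain ⟨d, hd⟩ := Function.ne_iff.1 hφ
  have ha' : v a ≠ 0 := ha
  have hb' : ψ b ≠ 0 := hb
  have hc' : y c ≠ 0 := hc
  have hd' : φ d ≠ 0 := hd
  have hz : φ ⬝ᵥ y = 0 ∧ ψ ⬝ᵥ v = 0 := by
    rcases mul_eq_zero.1 hprod with h1 | h1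
    · refine ⟨h1, ?_⟩
      have h2 := hent c d
      rw [h1, zero_mul, mul_zero] at h2
      have h3 := (mul_eq_zero.1 h2.symm).resolve_left hc'
      exact (mul_eq_zero.1 h3).resolve_right hd'
    · refine ⟨?_, h1⟩
      have h2 := hent a b
      rw [h1, zero_mul, mul_zero] at h2
      have h3 := (mul_eq_zero.1 h2).resolve_left ha'
      exact (mul_eq_zero.1 h3).resolve_right hb'
  by_cases hp : Par φ ψ
  · left
    have hvy : ¬ Par v y := fun h => hnp ⟨h, hp⟩
    refine ⟨hp, (max_axis hH' hmax' hφ hψ T1 T2 hp hvy hφ fun _ _ => by ring).1,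
      fun g t θ hθ hg => ?_⟩
    by_cases hθ0 : θ = 0
    · have h1 : g = 1 := by
        apply Subtype.ext
        rw [hg.2, hθ0, vecMulVec_zero, add_zero]
        rfl
      rw [h1]
      exact one_mem _
    · obtain ⟨_, A, hA, hA'⟩ := (max_axis hH' hmax' hφ hψ T1 T2 hp hvy hθ0 hθ).2 t hg.1
      have h1 : g = A := mt_inj (show g.1 = mt A by rw [hA', hg.2])
      rw [h1]
      exact hA
  · right
    have hvy : Par v y := par_of_two hp hφv hz.2 hz.1 hψy
    refine ⟨hvy, (max_centre hH' hmax' hv hy T1 T2 hvy hp hv fun _ _ => by ring).1,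
      fun g t θ ht hg => ?_⟩
    by_cases ht0 : t = 0
    · have h1 : g = 1 := by
        apply Subtype.ext
        rw [hg.2, ht0, zero_vecMulVec, add_zero]
        rfl
      rw [h1]
      exact one_mem _
    · obtain ⟨_, A, hA, hA'⟩ := (max_centre hH' hmax' hv hy T1 T2 hvy hp ht0 ht).2 θ hg.1
      have h1 : g = A := mt_inj (show g.1 = mt A by rw [hA', hg.2])
      rw [h1]
      exact hA

end Pool.Agent.Results.MP_5045a8_al.CommutingTransvections
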