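import Mathlib
import Pool.Agent.Run7.h25.HA.Unip

/-!
# Stabilisers of rational flags are maximal Haagerup subgroups of `SL (3, ℤ)`

For every rational line `ℚ y` contained in a rational plane `ker φ` of `ℚ ^ 3`, the stabiliser
`FlagStab y φ` of the line and of the plane in `SL (3, ℤ)` is a maximal Haagerup subgroup of
`SL (3, ℤ)`; for instance the group of upper triangular matrices of `SL (3, ℤ)`, which is a finite
extension of the integral Heisenberg group, is a maximal Haagerup subgroup. Moreover, let `g, h` be
elements of `SL (3, ℤ)` which do not commute and are upper unitriangular in a common rational basis.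
Then there is a flag such that its stabiliser contains `g, h` and each Haagerup subgroup of
`SL (3, ℤ)` which contains `g` and `h`. So each nonabelian unipotent subgroup of `SL (3, ℤ)` is
contained in exactly one maximal Haagerup subgroup of `SL (3, ℤ)`, and the latter is virtually
nilpotent.

Idea of the proof. (1) Let `K` be a Haagerup subgroup of `SL (3, ℤ)` which contains two
transvections with the same axis `ker φ` and different centres. Then `K` preserves `ker φ`: if
`k` in `K` does not preserve it, then the two transvections and their conjugates by `k` generate a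
group which contains, in a suitable rational basis, the elementary matrices `E₂₃, E₃₂` of some level
and two independent elements of the abelian group `{E₁₂, E₁₃}`, and the relative property (T) gives
a contradiction. Dually for two transvections with the same centre and different axes. (2) Both
cases apply to a group which contains the stabiliser of the flag, and to a group which contains
`g, h`: words `g ^ n h ^ m` and their powers are transvections with the axis and with the centre
given by the flag, and their commutator has this axis and this centre. (3) The stabiliser of the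
flag is upper triangular with diagonal entries `± 1` in a rational basis, and for such a group a
proper conditionally negative definite function is `log |1 + a² + b² + 2 i t|`, where `a, b, t` are
the coordinates of the Heisenberg group (this is the distance in the complex hyperbolic plane on a
horosphere).
-/

set_option autoImplicit false

namespace Pool.Agent.Results.MP_5045a8_al.FlagStabilisers

open Matrix

/-- The group `SL (3, ℤ)`. -/
abbrev SL3Z : Type := Matrix.SpecialLinearGroup (Fin 3) ℤ

/-- The Haagerup property: there is a proper conditionally negative definite function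
`ψ : Γ → [0, ∞)`. -/
def HasHaagerup (Γ : Type) [Group Γ] : Prop :=
  ∃ ψ : Γ → ℝ, (∀ g, 0 ≤ ψ g) ∧ (∀ g, ψ g⁻¹ = ψ g) ∧
    (∀ (n : ℕ) (g : Fin n → Γ) (c : Fin n → ℝ), ∑ i, c i = 0 →
      ∑ i, ∑ j, c i * c j * ψ ((g i)⁻¹ * g j) ≤ 0) ∧
    ∀ R : ℝ, {g | ψ g ≤ R}.Finite

/-- Maximal Haagerup subgroups. -/
def IsMaximalHaagerup {G : Type} [Group G] (H : Subgroup G) : Prop :=
  HasHaagerup H ∧ ∀ K : Subgroup G, H ≤ K → HasHaagerup K → K = H

/-- The stabiliser in `SL (3, ℤ)` of the rational line spanned by `y` and of the rational plane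
`ker φ`. -/
def FlagStab (y φ : Fin 3 → ℤ) : Subgroup SL3Z where
  carrier := {g | (g.1 *ᵥ y = y ∨ g.1 *ᵥ y = -y) ∧ (φ ᵥ* g.1 = φ ∨ φ ᵥ* g.1 = -φ)}
  one_mem' := (Pool.Agent.Run7.h25.HA.FS y φ).one_mem
  mul_mem' := (Pool.Agent.Run7.h25.HA.FS y φ).mul_mem
  inv_mem' := (Pool.Agent.Run7.h25.HA.FS y φ).inv_mem

/-- The matrix of `g` in the basis given by the columns of `x`. -/
noncomputable def inBasis (x : Matrix (Fin 3) (Fin 3) ℚ) (g : SL3Z) : Matrix (Fin 3) (Fin 3) ℚ :=
  x⁻¹ * g.1.map (Int.castRingHom ℚ) * x

/-- `g` is upper unitriangular in the basis given by the columns of `x`. -/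
def IsUnitriangular (x : Matrix (Fin 3) (Fin 3) ℚ) (g : SL3Z) : Prop :=
  (∀ i j, j < i → inBasis x g i j = 0) ∧ ∀ i, inBasis x g i i = 1

theorem haag_iff (Γ : Type) [Group Γ] : HasHaagerup Γ ↔ Pool.Agent.Run7.h25.HA.HasHaagerup Γ :=
  ⟨fun ⟨ψ, h1, h2, h3, h4⟩ => ⟨ψ, ⟨h1, h2, h3⟩, h4⟩, fun ⟨ψ, ⟨h1, h2, h3⟩, h4⟩ => ⟨ψ, h1, h2, h3, h4⟩⟩

theorem uni {x : Matrix (Fin 3) (Fin 3) ℚ} {g : SL3Z} (h : IsUnitriangular x g) :
    inBasis x g = !![1, inBasis x g 0 1, inBasis x g 0 2; 0, 1, inBasis x g 1 2; 0, 0, 1] := by
  obtain ⟨h1, h2⟩ := h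
  have a := h1 1 0 (by decide)
  have b := h1 2 0 (by decide)
  have c := h1 2 1 (by decide)
  ext i j
  fin_cases i <;> fin_cases j
  · exact h2 0
  · rfl
  · rfl
  · exact a
  · exact h2 1
  · rfl
  · exact b
  · exact c
  · exact h2 2

/-- (1) For every rational line contained in a rational plane the stabiliser of both in
`SL (3, ℤ)` is a maximal Haagerup subgroup of `SL (3, ℤ)`. (2) If `g, h` are elements of
`SL (3, ℤ)` which do not commute and which are upper unitriangular in a common rational basis, then
there is such a stabiliser which contains `g, h` and each Haagerup subgroup of `SL (3, ℤ)` which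
contains `g` and `h`. -/
theorem result :
    (∀ y φ : Fin 3 → ℤ, y ≠ 0 → φ ≠ 0 → φ ⬝ᵥ y = 0 → IsMaximalHaagerup (FlagStab y φ)) ∧
    ∀ x : Matrix (Fin 3) (Fin 3) ℚ, x.det ≠ 0 →
      ∀ g h : SL3Z, IsUnitriangular x g → IsUnitriangular x h → g * h ≠ h * g →
      ∃ y φ : Fin 3 → ℤ, y ≠ 0 ∧ φ ≠ 0 ∧ φ ⬝ᵥ y = 0 ∧ g ∈ FlagStab y φ ∧ h ∈ FlagStab y φ ∧
        ∀ K : Subgroup SL3Z, HasHaagerup K → g ∈ K → h ∈ K → K ≤ FlagStab y φ := by
  refine ⟨fun y φ hy hφ h => ⟨(haag_iff _).2 (Pool.Agent.Run7.h25.HA.fs_haagerup hy hφ h),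
    fun K hle hK => ?_⟩, ?_⟩
  · exact le_antisymm (Pool.Agent.Run7.h25.HA.fs_max hy hφ h ((haag_iff K).1 hK) hle) hle
  · intro x hx g h hg hh hne
    have eg := uni hg
    have eh := uni hh
    obtain ⟨y, φ, hy, hφ, hφy, hgF, hhF, hK⟩ := Pool.Agent.Run7.h25.HA.unip_two hx (g := g) (h := h)
      ⟨_, eg⟩ ⟨_, eh⟩ (by
        intro hab
        apply hne
        apply Pool.Agent.Run7.h25.HA.cj_inj hx
        rw [Pool.Agent.Run7.h25.HA.cj_mul hx, Pool.Agent.Run7.h25.HA.cj_mul hx]
        change inBasis x g * inBasis x h = inBasis x h * inBasis x g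
        rw [eg, eh]
        ext i j
        fin_cases i <;> fin_cases j <;> simp [Matrix.mul_apply, Fin.sum_univ_three] <;>
          linarith)
    exact ⟨y, φ, hy, hφ, hφy, hgF, hhF, fun K hK' hgK hhK => hK K ((haag_iff K).1 hK') hgK hhK⟩

end Pool.Agent.Results.MP_5045a8_al.FlagStabilisers
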