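import Mathlib
import Pool.Agent.Run7.h25.HA.Stb

/-!
# Maximal Haagerup subgroups of `SL (3, ℤ)` which preserve a plane and a complementary line

For every decomposition `ℚ ^ 3 = P ⊕ L` into a plane and a line, the stabiliser `Stab` of `P` and
`L` in `SL (3, ℤ)` is a maximal Haagerup subgroup of `SL (3, ℤ)`; for instance this is so for the
corner `GL (2, ℤ)`. Moreover every Haagerup subgroup of `SL (3, ℤ)` which contains a positive power
of each transvection in `Stab`, for instance a subgroup of finite index of `Stab`, is contained in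
`Stab`.

Idea of the proof. (1) Relative property (T): let `u, v, a, b` be elements of a group with `u, v`
commuting, `a u a⁻¹ = u vⁿ`, `a v = v a`, `b v b⁻¹ = v uⁿ`, `b u = u b`, `n ≥ 7`, and `u` of infinite
order. If the group had a proper conditionally negative definite function then, by Schoenberg's
theorem, it had a unitary representation with an almost invariant vector `ξ` such that
`⟨uᵏ ξ, ξ⟩ → 0`. With `X = |1 - z|²` and `Y = |1 - w|²` on the torus, the functions
`Y / (X + Y + δ)` and `X / (X + Y + δ)` and their translates by the powers of `a` and `b` satisfy an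
inequality which shows that the spectral measure of `ξ` on the dual of `⟨u, v⟩` has a large mass
at the trivial character, a contradiction. (2) Let `K` contain a power of each transvection in the
stabiliser and an element `k` which is not block diagonal in the basis. A conjugate by `k` of a
transvection in the stabiliser is a transvection `1 + z ⊗ η`. If `z` is not in `P` and `L` is in
the kernel of `η`, then the product with a power of the transvection which belongs to the
projection of `z` to `P` is an element of the unipotent radical of the stabiliser of `L`, and (1)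
applies. The other cases are reduced to this one by further conjugations and by duality. (3) On the
stabiliser the function `log (tr (h hᵀ) / 2)`, where `h` is the action on `P`, is conditionally
negative definite and proper.
-/

set_option autoImplicit false

namespace Pool.Agent.Results.MP_5045a8_al.LeviSubgroups

open Matrix

/-- The group `SL (3, ℤ)`. -/
abbrev SL3Z : Type := Matrix.SpecialLinearGroup (Fin 3) ℤ

/-- The Haagerup property: there is a proper conditionally negative definite function
`ψ : Γ → [0, ∞)`. -/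
def HasHaagerup (Γ : Type) [Group Γ] : Prop :=
  ∃ ψ : Γ → ℝ, (∀ g, 0 ≤ ψ g) ∧ (∀ g, ψ g⁻¹ = ψ g) ∧
    (∀ (n : ℕ) (g : Fin n → Γ) (c : Fin n → ℝ), ∑ i, c i = 0 →
      ∑ i, ∑ j, c i * c j * ψ ((g i)⁻¹ * g j) ≤ 0) ∧
    ∀ R : ℝ, {g | ψ g ≤ R}.Finite

/-- Maximal Haagerup subgroups. -/
def IsMaximalHaagerup {G : Type} [Group G] (H : Subgroup G) : Prop :=
  HasHaagerup H ∧ ∀ K : Subgroup G, H ≤ K → HasHaagerup K → K = H

/-- The matrix of `g` in the basis given by the columns of `x`. -/
noncomputable def inBasis (x : Matrix (Fin 3) (Fin 3) ℚ) (g : SL3Z) : Matrix (Fin 3) (Fin 3) ℚ :=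
  x⁻¹ * g.1.map (Int.castRingHom ℚ) * x

/-- `g` preserves the plane of the first two columns of `x` and the line of the third column. -/
def Preserves (x : Matrix (Fin 3) (Fin 3) ℚ) (g : SL3Z) : Prop :=
  inBasis x g 2 0 = 0 ∧ inBasis x g 2 1 = 0 ∧ inBasis x g 0 2 = 0 ∧ inBasis x g 1 2 = 0

/-- The stabiliser in `SL (3, ℤ)` of the plane spanned by the first two columns of `x` and of the
line spanned by the third column. -/
def Stab (x : Matrix (Fin 3) (Fin 3) ℚ) (hx : x.det ≠ 0) : Subgroup SL3Z where
  carrier := {g | Preserves x g}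
  one_mem' := (Pool.Agent.Run7.h25.HA.Stb x hx).one_mem
  mul_mem' := (Pool.Agent.Run7.h25.HA.Stb x hx).mul_mem
  inv_mem' := (Pool.Agent.Run7.h25.HA.Stb x hx).inv_mem

/-- `g = 1 + v ⊗ φ` with `v, φ` different from `0` and `φ (v) = 0`. -/
def IsTransvection (g : SL3Z) : Prop :=
  ∃ v φ : Fin 3 → ℤ, v ≠ 0 ∧ φ ≠ 0 ∧ φ ⬝ᵥ v = 0 ∧ g.1 = 1 + vecMulVec v φ

theorem haag_iff (Γ : Type) [Group Γ] : HasHaagerup Γ ↔ Pool.Agent.Run7.h25.HA.HasHaagerup Γ :=
  ⟨fun ⟨ψ, h1, h2, h3, h4⟩ => ⟨ψ, ⟨h1, h2, h3⟩, h4⟩, fun ⟨ψ, ⟨h1, h2, h3⟩, h4⟩ => ⟨ψ, h1, h2, h3, h4⟩⟩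

/-- For every rational basis `x` the stabiliser in `SL (3, ℤ)` of the plane of the first two
vectors and of the line of the third vector is a maximal Haagerup subgroup of `SL (3, ℤ)`, and each
Haagerup subgroup of `SL (3, ℤ)` which contains a positive power of every transvection in the
stabiliser is contained in the stabiliser. -/
theorem result : ∀ (x : Matrix (Fin 3) (Fin 3) ℚ) (hx : x.det ≠ 0),
    IsMaximalHaagerup (Stab x hx) ∧
    ∀ K : Subgroup SL3Z, HasHaagerup K →
      (∀ g ∈ Stab x hx, IsTransvection g → ∃ n : ℕ, 0 < n ∧ g ^ n ∈ K) → K ≤ Stab x hx := by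
  intro x hx
  have key : ∀ K : Subgroup SL3Z, HasHaagerup K →
      (∀ g ∈ Stab x hx, IsTransvection g → ∃ n : ℕ, 0 < n ∧ g ^ n ∈ K) → K ≤ Stab x hx :=
    fun K hK hp => Pool.Agent.Run7.h25.HA.le_stb hx ((haag_iff K).1 hK) hp
  refine ⟨⟨(haag_iff _).2 (Pool.Agent.Run7.h25.HA.stb_haagerup hx), fun K hle hK => ?_⟩, key⟩
  exact le_antisymm (key K hK fun g hg _ => ⟨1, one_pos, by rw [pow_one]; exact hle hg⟩) hle

end Pool.Agent.Results.MP_5045a8_al.LeviSubgroups
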