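import Mathlib
import Pool.Agent.Run7.h25.HA.Two

/-!
# Haagerup subgroups of `SL (3, ℤ)` which contain two transvections

Let `K` be a subgroup of `SL (3, ℤ)` with the Haagerup property, and let `u, w` be transvections in
`K`. Then `u` and `w` have a common nontrivial power, or `|tr (u w) - 3| ≥ 5` and `u, w` generate a
free group of rank two, or `K` preserves a rational line or a rational plane of `ℚ ^ 3`; in the last
case, if `tr (u w) ≠ 3` then `K` preserves a decomposition of `ℚ ^ 3` into a line and a plane.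

Thus the maximal Haagerup subgroups of `SL (3, ℤ)` which contain transvections `u, w` without a
common nontrivial power and with `|tr (u w) - 3| ≤ 4` preserve a rational line or plane; if
`tr (u w) ≠ 3` they are the stabilisers of decompositions `ℚ ^ 3 = P ⊕ L`.

Idea of the proof. Let `u = 1 + v ⊗ φ` and `w = 1 + y ⊗ ψ`, so that `tr (u w) = 3 + φ (y) ψ (v)`.
(1) If `φ (y) ψ (v) = 0` then, passing to a commutator and to the inverse transpose if necessary,
`K` contains two transvections with the same axis `ker φ` and different centres. If `k` in `K` does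
not preserve this plane, then the group generated by these transvections and their conjugates by
`k` contains, in a suitable basis, all elementary matrices `E₂₃, E₃₂, E₁₂, E₁₃` of some level, and
this contradicts relative property (T). (2) If `0 < |φ (y) ψ (v)| ≤ 4` then every rational vector
of the plane of `v, y` is the centre of a transvection in `⟨u, w⟩` (Euclid's algorithm; for
`|φ (y) ψ (v)| = 4` there is a third class of vectors, the centres of conjugates of
`(u ^ (± 1) w) ^ 4`), and then `K` is block diagonal by the argument of `LeviSubgroups`. (3) If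
`|φ (y) ψ (v)| ≥ 4` then `⟨u, w⟩` is free by ping-pong.
-/

set_option autoImplicit false

namespace Pool.Agent.Results.MP_5045a8_al.PairsOfTransvections

open Matrix

/-- The group `SL (3, ℤ)`. -/
abbrev SL3Z : Type := Matrix.SpecialLinearGroup (Fin 3) ℤ

/-- The Haagerup property: there is a proper conditionally negative definite function
`ψ : Γ → [0, ∞)`. -/
def HasHaagerup (Γ : Type) [Group Γ] : Prop :=
  ∃ ψ : Γ → ℝ, (∀ g, 0 ≤ ψ g) ∧ (∀ g, ψ g⁻¹ = ψ g) ∧
    (∀ (n : ℕ) (g : Fin n → Γ) (c : Fin n → ℝ), ∑ i, c i = 0 →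
      ∑ i, ∑ j, c i * c j * ψ ((g i)⁻¹ * g j) ≤ 0) ∧
    ∀ R : ℝ, {g | ψ g ≤ R}.Finite

/-- `g = 1 + v ⊗ φ` with `v, φ` different from `0` and `φ (v) = 0`. -/
def IsTransvection (g : SL3Z) : Prop :=
  ∃ v φ : Fin 3 → ℤ, v ≠ 0 ∧ φ ≠ 0 ∧ φ ⬝ᵥ v = 0 ∧ g.1 = 1 + vecMulVec v φ

/-- `K` preserves a rational line (spanned by `v`) or a rational plane (the kernel of `φ`). -/
def PreservesLineOrPlane (K : Subgroup SL3Z) : Prop :=
  (∃ v : Fin 3 → ℤ, v ≠ 0 ∧ ∀ k ∈ K, k.1 *ᵥ v = v ∨ k.1 *ᵥ v = -v) ∨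
    ∃ φ : Fin 3 → ℤ, φ ≠ 0 ∧ ∀ k ∈ K, φ ᵥ* k.1 = φ ∨ φ ᵥ* k.1 = -φ

/-- `K` preserves a rational line (spanned by `v`) and a complementary rational plane (the kernel
of `φ`). -/
def PreservesDecomposition (K : Subgroup SL3Z) : Prop :=
  ∃ v φ : Fin 3 → ℤ, φ ⬝ᵥ v ≠ 0 ∧ (∀ k ∈ K, k.1 *ᵥ v = v ∨ k.1 *ᵥ v = -v) ∧
    ∀ k ∈ K, φ ᵥ* k.1 = φ ∨ φ ᵥ* k.1 = -φ

open Pool.Agent.Run7.h25.TV Pool.Agent.Run7.h25.HA in
/-- Let `K` be a Haagerup subgroup of `SL (3, ℤ)` and let `u, w` be transvections in `K`. Then `u`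
and `w` have a common nontrivial power; or `|tr (u w) - 3| ≥ 5` and `u, w` freely generate a free
group; or `K` preserves a rational line or plane, and even a decomposition of `ℚ ^ 3` into a line
and a plane if `tr (u w) ≠ 3`. -/
theorem result : ∀ K : Subgroup SL3Z, HasHaagerup K → ∀ u ∈ K, ∀ w ∈ K,
    IsTransvection u → IsTransvection w →
    (∃ a b : ℤ, a ≠ 0 ∧ b ≠ 0 ∧ u ^ a = w ^ b) ∨
    (5 ≤ |(u.1 * w.1).trace - 3| ∧ Function.Injective (FreeGroup.lift ![u, w])) ∨
    (PreservesLineOrPlane K ∧ ((u.1 * w.1).trace ≠ 3 → PreservesDecomposition K)) := by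
  rintro K ⟨ψ₀, q1, q2, q3, q4⟩ u hu w hw ⟨v, φ, hv, hφ, hφv, hum⟩ ⟨y, ψ, hy, hψ, hψy, hwm⟩
  have hK : Pool.Agent.Run7.h25.HA.HasHaagerup K := ⟨ψ₀, ⟨q1, q2, q3⟩, q4⟩
  have T1 : Tr K v φ := ⟨hφv, u, hu, hum⟩
  have T2 : Tr K y ψ := ⟨hψy, w, hw, hwm⟩
  have e : (u.1 * w.1).trace = (φ ⬝ᵥ y) * (ψ ⬝ᵥ v) + 3 := by
    rw [hum, hwm, Matrix.add_mul, Matrix.mul_add, Matrix.mul_add, Matrix.one_mul,
      Matrix.one_mul, Matrix.mul_one, vecMulVec_mul_vecMulVec, vecMulVec_smul, trace_add,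
      trace_add, trace_add, trace_one, trace_smul, trace_vecMulVec, trace_vecMulVec,
      trace_vecMulVec, dotProduct_comm v φ, dotProduct_comm y ψ, dotProduct_comm v ψ, hφv, hψy,
      Fintype.card_fin, smul_eq_mul]
    ring
  rw [e, add_sub_cancel_right]
  by_cases hpar : Par v y ∧ Par φ ψ
  · exact Or.inl (common_power ⟨hv, hφ, hφv, hum⟩ ⟨hy, hψ, hψy, hwm⟩ hpar.1 hpar.2)
  right
  by_cases h0 : (φ ⬝ᵥ y) * (ψ ⬝ᵥ v) = 0
  · right
    refine ⟨?_, fun h => absurd (by rw [h0, zero_add]) h⟩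
    rcases mul_eq_zero.1 h0 with h1 | h1
    · exact trace_three hK hv hφ hψ hy T1 T2 hpar h1
    · refine trace_three hK hy hψ hφ hv T2 T1 (fun h => hpar ⟨?_, ?_⟩) h1
      · intro p q
        linear_combination -(h.1 p q)
      · intro p q
        linear_combination -(h.2 p q)
  · by_cases h4 : |(φ ⬝ᵥ y) * (ψ ⬝ᵥ v)| ≤ 4
    · right
      have hd : Dec K := trace_small hK hφ hψ T1 T2 h0 h4
      refine ⟨?_, fun _ => hd⟩
      obtain ⟨a, b, hab, h1, _⟩ := hd
      left
      refine ⟨a, ?_, h1⟩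
      rintro rfl
      exact hab (dotProduct_zero _)
    · left
      rw [not_le] at h4
      exact ⟨h4, free_pair ⟨hv, hφ, hφv, hum⟩ ⟨hy, hψ, hψy, hwm⟩ h4.le⟩

end Pool.Agent.Results.MP_5045a8_al.PairsOfTransvections
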